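import Pool.Agent.Y303.EJ.Stm
import Pool.Agent.Y328.SK.Bas

/-!
Project EJ: Riesz-Fischer and Parseval in the space `H`.
-/

open Set Filter Topology MeasureTheory Metric

set_option autoImplicit false

namespace Pool.Agent.Y936.EJ

open Pool.Agent.Y5 (E3)
open Pool.Agent.Y303.SK Pool.Agent.Y303.EJ
open Pool.Agent.Y328.SK (VS TT memLp_cs inner_TT norm_TT)

/-- the Hilbert space -/
abbrev L2 : Type := Lp E3 2 (volume : Measure E3)

/-- the class of a field -/
noncomputable def toL (v : E3 → E3) : L2 :=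
  open Classical in if h : MemLp v 2 volume then h.toLp v else 0

theorem toL_eq {v : E3 → E3} (h : MemLp v 2 volume) : toL v = h.toLp v := dif_pos h

theorem toL_inner {v w : E3 → E3} (hv : MemLp v 2 volume) (hw : MemLp w 2 volume) :
    inner ℝ (toL v) (toL w) = ipr v w := by
  rw [toL_eq hv, toL_eq hw, L2.inner_def]
  unfold ipr
  apply integral_congr_ae
  filter_upwards [hv.coeFn_toLp, hw.coeFn_toLp] with x h1 h2
  rw [h1, h2]

theorem toL_coe (x : L2) : toL x = x := by
  rw [toL_eq (Lp.memLp x)]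
  exact Lp.toLp_coeFn x _

theorem toL_sub {v w : E3 → E3} (hv : MemLp v 2 volume) (hw : MemLp w 2 volume) :
    ∫ x, ‖v x - w x‖ ^ 2 = ‖toL v - toL w‖ ^ 2 := by
  have h1 : toL v - toL w = toL (v - w) := by
    rw [toL_eq hv, toL_eq hw, toL_eq (hv.sub hw)]
    exact (MemLp.toLp_sub hv hw).symm
  rw [h1, ← real_inner_self_eq_norm_sq, toL_inner (hv.sub hw) (hv.sub hw)]
  unfold ipr
  exact integral_congr_ae (Eventually.of_forall fun x => (real_inner_self_eq_norm_sq _).symm)

section

variable {Ω : Set E3} {ι : Type} {e : ι → E3 → E3} {σ : ι → ι} {s : ι → ℝ}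

/-- the classes of the basis fields -/
noncomputable def EE (e : ι → E3 → E3) (i : ι) : L2 := toL (e i)

theorem orthonormal_EE (h : SkewD Ω e σ s) : Orthonormal ℝ (EE e) := by
  classical
  rw [orthonormal_iff_ite]
  intro i j
  unfold EE
  rw [toL_inner (memLp_cs (h.field i)) (memLp_cs (h.field j))]
  split_ifs with hij
  · exact (h.orth i j).1 hij
  · exact (h.orth i j).2 hij

/-- finite combinations -/
theorem toL_sum (h : SkewD Ω e σ s) (F : Finset ι) (b : ι → ℝ) :
    MemLp (fun x => ∑ a ∈ F, b a • e a x) 2 volume ∧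
      toL (fun x => ∑ a ∈ F, b a • e a x) = ∑ a ∈ F, b a • EE e a ∧
      CS Ω (fun x => ∑ a ∈ F, b a • e a x) := by
  classical
  obtain ⟨V, hV⟩ : ∃ V : VS Ω, V = ∑ a ∈ F, b a • (⟨e a, h.field a⟩ : VS Ω) := ⟨_, rfl⟩
  have h1 : (V : E3 → E3) = fun x => ∑ a ∈ F, b a • e a x := by
    rw [hV]
    funext x
    rw [Submodule.coe_sum, Finset.sum_apply]
    rfl
  have h2 : CS Ω (fun x => ∑ a ∈ F, b a • e a x) := by
    rw [← h1]
    exact V.2
  refine ⟨memLp_cs h2, ?_, h2⟩
  have h3 : toL (fun x => ∑ a ∈ F, b a • e a x) = TT Ω V := by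
    rw [← h1]
    exact toL_eq (memLp_cs V.2)
  rw [h3, hV, map_sum]
  refine Finset.sum_congr rfl fun a _ => ?_
  rw [map_smul]
  congr 1
  exact (toL_eq (memLp_cs (h.field a))).symm

/-- the span of the basis -/
noncomputable def Sp (e : ι → E3 → E3) : Submodule ℝ L2 := Submodule.span ℝ (range (EE e))

theorem mem_of_inH (h : SkewD Ω e σ s) {v : E3 → E3} (hv : InH Ω v) :
    toL v ∈ (Sp e).topologicalClosure := by
  change toL v ∈ closure (Sp e : Set L2)
  rw [Metric.mem_closure_iff]
  intro ε hε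
  obtain ⟨w, hw, hvw⟩ := hv.2 ((ε / 2) ^ 2) (by positivity)
  obtain ⟨F, b, hb⟩ := h.compl w hw ((ε / 2) ^ 2) (by positivity)
  obtain ⟨h1, h2, h3⟩ := toL_sum h F b
  refine ⟨∑ a ∈ F, b a • EE e a, ?_, ?_⟩
  · exact Submodule.sum_mem _ fun a _ => Submodule.smul_mem _ _
      (Submodule.subset_span ⟨a, rfl⟩)
  · rw [toL_sub hv.1 (memLp_cs hw)] at hvw
    rw [toL_sub (memLp_cs hw) h1, h2] at hb
    have e1 : ‖toL v - toL w‖ < ε / 2 := lt_of_pow_lt_pow_left₀ 2 (by positivity) hvw
    have e2 : ‖toL w - ∑ a ∈ F, b a • EE e a‖ < ε / 2 :=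
      lt_of_pow_lt_pow_left₀ 2 (by positivity) hb
    rw [dist_eq_norm]
    have e3 := norm_sub_le_norm_sub_add_norm_sub (toL v) (toL w) (∑ a ∈ F, b a • EE e a)
    linarith

theorem inH_of_mem (h : SkewD Ω e σ s) (x : L2) (hx : x ∈ (Sp e).topologicalClosure) :
    InH Ω x := by
  refine ⟨Lp.memLp x, fun ε hε => ?_⟩
  have hx' : x ∈ closure (Sp e : Set L2) := hx
  rw [Metric.mem_closure_iff] at hx'
  obtain ⟨y, hy, hxy⟩ := hx' (Real.sqrt ε) (Real.sqrt_pos.2 hε)
  have hy' : y ∈ Submodule.span ℝ (range (EE e)) := hy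
  obtain ⟨l, rfl⟩ := (Finsupp.mem_span_range_iff_exists_finsupp).1 hy'
  obtain ⟨h1, h2, h3⟩ := toL_sum h l.support l
  refine ⟨_, h3, ?_⟩
  rw [toL_sub (Lp.memLp x) h1, h2, toL_coe]
  rw [dist_eq_norm] at hxy
  have h4 : (l.sum fun i a => a • EE e i) = ∑ a ∈ l.support, l a • EE e a := rfl
  rw [h4] at hxy
  calc _ < (Real.sqrt ε) ^ 2 := pow_lt_pow_left₀ hxy (norm_nonneg _) (by norm_num)
    _ = ε := Real.sq_sqrt hε.le

/-- the Hilbert basis of the closed span -/
theorem exists_basis (h : SkewD Ω e σ s) :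
    ∃ b : HilbertBasis ι ℝ (Sp e).topologicalClosure, ∀ i, ((b i : (Sp e).topologicalClosure) : L2)
      = EE e i := by
  have hmem : ∀ i, EE e i ∈ (Sp e).topologicalClosure := fun i =>
    Submodule.le_topologicalClosure _ (Submodule.subset_span ⟨i, rfl⟩)
  obtain ⟨v, hv⟩ : ∃ v : ι → (Sp e).topologicalClosure, v = fun i => ⟨EE e i, hmem i⟩ := ⟨_, rfl⟩
  have hvi : ∀ i, ((v i : (Sp e).topologicalClosure) : L2) = EE e i := by
    intro i
    rw [hv]
  have hort : Orthonormal ℝ v := by
    have h1 := orthonormal_EE h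
    constructor
    · intro i
      rw [← h1.1 i, ← hvi i]
      rfl
    · intro i j hij
      have h2 : inner ℝ (EE e i) (EE e j) = 0 := h1.2 hij
      rw [← hvi i, ← hvi j] at h2
      exact h2
  have : CompleteSpace (Sp e).topologicalClosure :=
    (Submodule.isClosed_topologicalClosure _).completeSpace_coe
  have hbot : (Submodule.span ℝ (range v))ᗮ = ⊥ := by
    rw [eq_bot_iff]
    intro x hx
    rw [Submodule.mem_bot]
    have h1 : ∀ i, inner ℝ (EE e i) (x : L2) = 0 := by
      intro i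
      have := (Submodule.mem_orthogonal _ _).1 hx (v i) (Submodule.subset_span ⟨i, rfl⟩)
      rw [← hvi i]
      exact this
    have h2 : (x : L2) ∈ (Sp e)ᗮ := by
      rw [Submodule.mem_orthogonal]
      intro u hu
      induction hu using Submodule.span_induction with
      | mem u hu =>
        obtain ⟨i, rfl⟩ := hu
        exact h1 i
      | zero => exact inner_zero_left _
      | add a b _ _ ha hb => rw [inner_add_left, ha, hb, add_zero]
      | smul r a _ ha => rw [inner_smul_left, ha, mul_zero]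
    have h3 : (x : L2) ∈ ((Sp e).topologicalClosure)ᗮ := by
      rw [Submodule.orthogonal_closure]
      exact h2
    have h4 := (Submodule.mem_orthogonal _ _).1 h3 x x.2
    have h5 : (x : L2) = 0 := inner_self_eq_zero.1 h4
    exact Subtype.ext h5
  refine ⟨HilbertBasis.mkOfOrthogonalEqBot hort hbot, fun i => ?_⟩
  rw [HilbertBasis.coe_mkOfOrthogonalEqBot]
  exact hvi i

end

theorem t_RF : S_RF := by
  intro Ω ι e σ s y _ _ h _ hy
  obtain ⟨b, hb⟩ := exists_basis h
  have : CompleteSpace (Sp e).topologicalClosure :=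
    (Submodule.isClosed_topologicalClosure _).completeSpace_coe
  have hmem : Memℓp y 2 := by
    apply memℓp_gen
    simpa using hy
  obtain ⟨x, hx⟩ : ∃ x : (Sp e).topologicalClosure, x = b.repr.symm ⟨y, hmem⟩ := ⟨_, rfl⟩
  have hcoef : ∀ i, inner ℝ (x : L2) (EE e i) = y i := by
    intro i
    have h1 := b.repr_apply_apply x i
    rw [hx, LinearIsometryEquiv.apply_symm_apply, ← hx] at h1
    rw [real_inner_comm, ← hb i]
    exact h1.symm
  have hE : ∀ i, ipr (x : L2) (e i) = y i := by
    intro i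
    rw [← toL_inner (Lp.memLp (x : L2)) (memLp_cs (h.field i)), toL_coe]
    exact hcoef i
  refine ⟨(x : L2), inH_of_mem h _ x.2, hE, ?_⟩
  rw [← toL_inner (Lp.memLp (x : L2)) (Lp.memLp (x : L2)), toL_coe]
  have h2 := b.tsum_inner_mul_inner x x
  rw [show (inner ℝ (x : L2) (x : L2) : ℝ) = inner ℝ x x from rfl, ← h2]
  refine tsum_congr fun i => ?_
  have h3 : inner ℝ x (b i) = y i := by
    rw [← hcoef i, ← hb i]
    rfl
  rw [real_inner_comm x (b i), h3]
  ring

theorem t_WC : S_WC := by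
  intro Ω ι e σ s _ _ h _
  refine ⟨fun v hv => ?_, fun T M u hu hc v hv => ?_⟩
  · obtain ⟨b, hb⟩ := exists_basis h
    have : CompleteSpace (Sp e).topologicalClosure :=
      (Submodule.isClosed_topologicalClosure _).completeSpace_coe
    obtain ⟨x, hx⟩ : ∃ x : (Sp e).topologicalClosure, (x : L2) = toL v :=
      ⟨⟨toL v, mem_of_inH h hv⟩, rfl⟩
    have hcoef : ∀ i, ipr v (e i) = inner ℝ x (b i) := by
      intro i
      rw [← toL_inner hv.1 (memLp_cs (h.field i)), ← hx]
      change inner ℝ (x : L2) (EE e i) = _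
      rw [← hb i]
      rfl
    have h2 := b.hasSum_inner_mul_inner x x
    have h3 : (fun i => inner ℝ x (b i) * inner ℝ (b i) x) = fun i => ipr v (e i) ^ 2 := by
      funext i
      rw [real_inner_comm x (b i), hcoef i]
      ring
    rw [h3] at h2
    refine ⟨h2.summable, ?_⟩
    rw [h2.tsum_eq, ← toL_inner hv.1 hv.1, ← hx]
    rfl
  · have hcong : ∀ w, MemLp w 2 volume → ∀ t ∈ Icc 0 T,
        ipr (u t) w = inner ℝ (toL (u t)) (toL w) := fun w hw t ht =>
      (toL_inner (hu t ht).1.1 hw).symm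
    -- continuity for the elements of the span
    have hspan : ∀ W ∈ Sp e, ContinuousOn (fun t => inner ℝ (toL (u t)) W) (Icc 0 T) := by
      intro W hW
      induction hW using Submodule.span_induction with
      | mem W hW =>
        obtain ⟨i, rfl⟩ := hW
        refine (hc i).congr fun t ht => ?_
        exact toL_inner (hu t ht).1.1 (memLp_cs (h.field i))
      | zero =>
        simp only [inner_zero_right]
        exact continuousOn_const
      | add a b _ _ ha hb =>
        simp only [inner_add_right]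
        exact ha.add hb
      | smul r a _ ha =>
        simp only [inner_smul_right]
        exact continuousOn_const.mul ha
    have hnorm : ∀ t ∈ Icc 0 T, ‖toL (u t)‖ ≤ Real.sqrt M := by
      intro t ht
      apply Real.le_sqrt_of_sq_le
      rw [← real_inner_self_eq_norm_sq, toL_inner (hu t ht).1.1 (hu t ht).1.1]
      exact (hu t ht).2
    have hmain : ContinuousOn (fun t => inner ℝ (toL (u t)) (toL v)) (Icc 0 T) := by
      apply continuousOn_of_uniform_approx_of_continuousOn
      intro U hU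
      obtain ⟨ε, hε, hεU⟩ := Metric.mem_uniformity_dist.1 hU
      have hcl : toL v ∈ closure (Sp e : Set L2) := mem_of_inH h hv
      rw [Metric.mem_closure_iff] at hcl
      obtain ⟨W, hW, hvW⟩ := hcl (ε / (Real.sqrt M + 1)) (by positivity)
      refine ⟨_, hspan W hW, fun t ht => hεU ?_⟩
      rw [Real.dist_eq, ← inner_sub_right]
      rw [dist_eq_norm, lt_div_iff₀ (by positivity)] at hvW
      calc |inner ℝ (toL (u t)) (toL v - W)| ≤ ‖toL (u t)‖ * ‖toL v - W‖ :=
            abs_real_inner_le_norm _ _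
        _ ≤ Real.sqrt M * ‖toL v - W‖ :=
            mul_le_mul_of_nonneg_right (hnorm t ht) (norm_nonneg _)
        _ ≤ ‖toL v - W‖ * (Real.sqrt M + 1) := by nlinarith [norm_nonneg (toL v - W)]
        _ < ε := hvW
    exact hmain.congr fun t ht => hcong v hv.1 t ht

end Pool.Agent.Y936.EJ
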